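import Mathlib
import Pool.Agent.H68.RFDefs
import Pool.Agent.H68.Hall

set_option autoImplicit false

namespace Pool.Agent.Results.MP_514792_al.Intermediate

open Pool.Agent.H68.RF

theorem pow_le (K : ℕ) : ∃ C : ℕ, ∀ r : ℕ, r ^ K ≤ C * 2 ^ r := by
  obtain ⟨C, hC⟩ := (tendsto_pow_const_div_const_pow_of_one_lt K
    (show (1 : ℝ) < 2 by norm_num)).bddAbove_range
  obtain ⟨C', hC'⟩ := exists_nat_ge C
  refine ⟨C', fun r => ?_⟩
  have := (hC ⟨r, rfl⟩).trans hC'
  rw [div_le_iff₀ (by positivity)] at this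
  exact_mod_cast this

theorem lower (d : ℕ) (hd : 1 ≤ d) :
    Prec (fun n => (n : ℝ) ^ d) (fun n => (rfGrowth SS n : ℝ)) := by
  classical
  obtain ⟨C, hC⟩ := pow_le (4 * d)
  refine ⟨216 ^ d * C + 16, by omega, fun n => ?_⟩
  rcases Nat.eq_zero_or_pos n with rfl | hn
  · simp only [Nat.cast_zero, zero_pow (by omega : d ≠ 0)]; positivity
  generalize hN : (216 ^ d * C + 16) * n = N
  have hN1 : 16 * n ≤ N := hN ▸ Nat.mul_le_mul_right n (by omega)
  have hex : ∃ k, N < 4 * rr (k + 1) + 4 := ⟨N, by have := lt_rr (N + 1); omega⟩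
  have h1 := Nat.find_spec hex
  obtain ⟨j, hj⟩ : ∃ j, Nat.find hex = j + 1 := Nat.exists_eq_succ_of_ne_zero (by
    intro h; rw [h] at h1; simp [rr] at h1; omega)
  have h2 := F_lower j N (not_lt.1 (Nat.find_min hex (by omega)))
  rw [hj] at h1
  have p := rr_pos j
  have h3 : n ≤ 216 * rr j ^ 4 := by
    have : rr (j + 1 + 1) = 27 * rr j ^ 4 := by simp only [rr]; ring
    have : 0 < rr j ^ 4 := by positivity
    omega
  have h4 : n ^ d ≤ (216 ^ d * C + 16) * rfGrowth SS N := by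
    calc n ^ d ≤ (216 * rr j ^ 4) ^ d := Nat.pow_le_pow_left h3 d
      _ = 216 ^ d * rr j ^ (4 * d) := by rw [mul_pow, pow_mul]
      _ ≤ 216 ^ d * (C * 2 ^ rr j) := Nat.mul_le_mul_left _ (hC _)
      _ = 216 ^ d * C * 2 ^ rr j := by ring
      _ ≤ _ := Nat.mul_le_mul (by omega) h2
  beta_reduce
  exact_mod_cast h4

theorem two_pow_le (m : ℕ) : (2 : ℝ) ^ m ≤ Real.exp m := by
  rw [← mul_one (m : ℝ), Real.exp_nat_mul]
  exact pow_le_pow_left₀ (by norm_num) (by linarith [Real.add_one_le_exp (1 : ℝ)]) m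

theorem result : ∃ (G : Type) (_ : Group G) (S : Finset G), Subgroup.closure (S : Set G) = ⊤ ∧
    (∀ g : G, g ≠ 1 → ∃ N : Subgroup G, N.Normal ∧ N.FiniteIndex ∧ g ∉ N) ∧
    (∀ d : ℕ, 1 ≤ d → Prec (fun n => (n : ℝ) ^ d) (fun n => (rfGrowth S n : ℝ)) ∧
      ¬ Prec (fun n => (rfGrowth S n : ℝ)) (fun n => (n : ℝ) ^ d)) ∧
    Prec (fun n => (rfGrowth S n : ℝ)) (fun n => Real.exp n) ∧
    ¬ Prec (fun n => Real.exp n) (fun n => (rfGrowth S n : ℝ)) := by
  refine ⟨GG, inferInstance, SS, SS_gen, fun g hg => ?_, fun d hd => ⟨lower d hd, ?_⟩, ?_, ?_⟩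
  · obtain ⟨N, a, b, c, -⟩ := det_G _ _ (fun _ h => h) g hg le_rfl
    exact ⟨N, a, b, c⟩
  · rintro ⟨C', -, h'⟩
    obtain ⟨C, -, h⟩ := lower (d + 1) (by omega)
    have key : ∀ n : ℕ, n ^ (d + 1) ≤ C * C' * (C' * C) ^ d * n ^ d := by
      intro n
      have a1 := (h n).trans (mul_le_mul_of_nonneg_left (h' (C * n)) (by positivity))
      have : (n : ℝ) ^ (d + 1) ≤ C * C' * (C' * C) ^ d * n ^ d := by
        refine a1.trans (le_of_eq ?_)
        push_cast; ring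
      exact_mod_cast this
    have := key (C * C' * (C' * C) ^ d + 1)
    rw [pow_succ, mul_comm] at this
    have := Nat.le_of_mul_le_mul_right this (by positivity)
    omega
  · refine ⟨28, by norm_num, fun n => ?_⟩
    have h1 := F_upper n (2 * n) (fun _ h => h)
    have h2 := Nat.lt_two_pow_self (n := n)
    have h3 : (n + 1) ^ 2 ≤ 2 ^ (28 * n) := by
      calc _ ≤ (2 ^ n) ^ 2 := Nat.pow_le_pow_left h2 2
        _ ≤ _ := by rw [← pow_mul]; exact Nat.pow_le_pow_right two_pos (by omega)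
    have h4 : 2 ^ (3 * (2 * n)) * n ≤ 2 ^ (28 * n) := by
      calc _ ≤ 2 ^ (3 * (2 * n)) * 2 ^ n := Nat.mul_le_mul_left _ h2.le
        _ ≤ _ := by rw [← pow_add]; exact Nat.pow_le_pow_right two_pos (by omega)
    have h5 : rfGrowth SS n ≤ 28 * 2 ^ (28 * n) := by nlinarith
    have h6 : (rfGrowth SS n : ℝ) ≤ 28 * 2 ^ (28 * n) := by exact_mod_cast h5
    exact h6.trans (mul_le_mul_of_nonneg_left (two_pow_le _) (by norm_num))
  · rintro ⟨C, -, h⟩
    obtain ⟨k, hk⟩ : ∃ k, k = 7 * C + 11 := ⟨_, rfl⟩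
    have p := lt_rr k
    have h1 := F_upper (C * (10 * rr k)) (rr k) fun l hl => by
      rcases le_or_gt l k with c | c
      · exact Nat.le_of_dvd (rr_pos k) (rr_dvd c)
      · have := Nat.le_of_dvd (rr_pos l) (rr_dvd (show k + 1 ≤ l from c))
        simp only [rr] at this
        nlinarith
    generalize rr k = r at *
    have h2 := (two_pow_le (10 * r)).trans (h (10 * r))
    beta_reduce at h2
    have h3 : 2 ^ (10 * r) ≤ C * rfGrowth SS (C * (10 * r)) := by exact_mod_cast h2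
    have q1 : r ≤ 2 ^ r := Nat.lt_two_pow_self.le
    have q2 : 2048 ≤ 2 ^ r := (Nat.pow_le_pow_right two_pos (by omega : 11 ≤ r))
    have e1 : 2 ^ (10 * r) = (2 ^ r) ^ 10 := by rw [← pow_mul, mul_comm]
    have e2 : 2 ^ (3 * r) = (2 ^ r) ^ 3 := by rw [← pow_mul, mul_comm]
    rw [e1] at h3; rw [e2] at h1
    generalize 2 ^ r = X at *
    have q3 : C ≤ X := by omega
    have q4 : C * (10 * r) + 1 ≤ X ^ 3 := by
      have : C * r ≤ X * X := Nat.mul_le_mul q3 q1
      nlinarith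
    have q5 : (C * (10 * r) + 1) ^ 2 ≤ X ^ 6 := by
      calc _ ≤ (X ^ 3) ^ 2 := Nat.pow_le_pow_left q4 2
        _ = _ := by ring
    have q6 : X ^ 3 * (6 * r) ≤ 6 * X ^ 6 := by
      calc _ ≤ X ^ 3 * (6 * X ^ 3) := Nat.mul_le_mul_left _ (Nat.mul_le_mul_left _
            (q1.trans (Nat.le_self_pow (by norm_num) X)))
        _ = _ := by ring
    have q7 : X ^ 10 ≤ X * (22 * X ^ 6) := h3.trans (Nat.mul_le_mul q3 (by omega))
    have q8 : X ^ 7 * X ^ 3 ≤ X ^ 7 * 22 := by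
      calc _ = X ^ 10 := by ring
        _ ≤ _ := q7
        _ = _ := by ring
    have q9 := Nat.le_of_mul_le_mul_left q8 (by positivity)
    have := Nat.le_self_pow (n := 3) (by norm_num) X
    omega

end Pool.Agent.Results.MP_514792_al.Intermediate
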